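import Mathlib
import Pool.Agent.H776R3.GapVol.Riemann
import Pool.Agent.W120.VC.Tet

/-!
# Quadratic lower bound of `Λ(π/4 + x/2) + Λ(π/4 - x/2)`
-/

set_option autoImplicit false

namespace Pool.Agent.N390.VV

open Real Set

theorem cos_lb {x : ℝ} (h0 : 0 ≤ x) (h1 : x ≤ π / 8) : 0.9238 ≤ cos x := by
  have h2 : cos (π / 8) ≤ cos x := cos_le_cos_of_nonneg_of_le_pi h0 (by linarith [pi_pos]) h1
  have h3 : 0.9238 ≤ cos (π / 8) := by
    rw [cos_pi_div_eight]
    have a1 : 1.4142 ≤ √2 := by
      apply Real.le_sqrt_of_sq_le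
      norm_num
    have a2 : 1.8476 ≤ √(2 + √2) := by
      apply Real.le_sqrt_of_sq_le
      norm_num
      linarith
    linarith
  linarith

/-- the derivative of the difference of the two sides -/
noncomputable def G (x : ℝ) : ℝ :=
  1 / 2 * (log (2 * sin (π / 4 - x / 2)) - log (2 * sin (π / 4 + x / 2))) + 271 / 500 * x

theorem da (x : ℝ) : HasDerivAt (fun y : ℝ => π / 4 - y / 2) (-(1 / 2)) x := by
  have := ((hasDerivAt_id x).div_const 2).const_sub (π / 4)
  simpa using this

theorem db (x : ℝ) : HasDerivAt (fun y : ℝ => π / 4 + y / 2) (1 / 2) x := by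
  have := ((hasDerivAt_id x).div_const 2).const_add (π / 4)
  simpa using this

theorem G_deriv {x : ℝ} (h0 : 0 ≤ x) (h1 : x ≤ π / 8) :
    HasDerivAt G (-(1 / (2 * cos x)) + 271 / 500) x := by
  have hpi := pi_pos
  have ha : 0 < sin (π / 4 - x / 2) := sin_pos_of_pos_of_lt_pi (by linarith) (by linarith)
  have hb : 0 < sin (π / 4 + x / 2) := sin_pos_of_pos_of_lt_pi (by linarith) (by linarith)
  have d1 := ((da x).sin.const_mul 2).log (by positivity)
  have d2 := ((db x).sin.const_mul 2).log (by positivity)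
  have d3 := ((d1.sub d2).const_mul (1 / 2)).add ((hasDerivAt_id x).const_mul (271 / 500))
  refine d3.congr_deriv ?_
  have e1 : cos (π / 4 - x / 2) * sin (π / 4 + x / 2) +
      cos (π / 4 + x / 2) * sin (π / 4 - x / 2) = 1 := by
    have := sin_add (π / 4 - x / 2) (π / 4 + x / 2)
    rw [show π / 4 - x / 2 + (π / 4 + x / 2) = π / 2 by ring, sin_pi_div_two] at this
    linarith
  have e2 : 2 * (sin (π / 4 - x / 2) * sin (π / 4 + x / 2)) = cos x := by
    have h := cos_sub (π / 4 + x / 2) (π / 4 - x / 2)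
    have h' := cos_add (π / 4 + x / 2) (π / 4 - x / 2)
    rw [show π / 4 + x / 2 - (π / 4 - x / 2) = x by ring] at h
    rw [show π / 4 + x / 2 + (π / 4 - x / 2) = π / 2 by ring, cos_pi_div_two] at h'
    linarith
  rw [← e2]
  have e3 : 1 / (2 * (2 * (sin (π / 4 - x / 2) * sin (π / 4 + x / 2)))) =
      (cos (π / 4 - x / 2) * sin (π / 4 + x / 2) +
      cos (π / 4 + x / 2) * sin (π / 4 - x / 2)) /
        (2 * (2 * (sin (π / 4 - x / 2) * sin (π / 4 + x / 2)))) := by rw [e1]
  rw [e3]
  generalize sin (π / 4 - x / 2) = sa at *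
  generalize sin (π / 4 + x / 2) = sb at *
  field_simp
  ring

theorem G_nonneg {x : ℝ} (h0 : 0 ≤ x) (h1 : x ≤ π / 8) : 0 ≤ G x := by
  have hmono : MonotoneOn G (Icc 0 (π / 8)) := by
    apply monotoneOn_of_deriv_nonneg (convex_Icc 0 (π / 8))
    · intro t ht
      exact (G_deriv ht.1 ht.2).continuousAt.continuousWithinAt
    · intro t ht
      rw [interior_Icc] at ht
      exact (G_deriv ht.1.le ht.2.le).differentiableAt.differentiableWithinAt
    · intro t ht
      rw [interior_Icc] at ht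
      rw [(G_deriv ht.1.le ht.2.le).deriv]
      have h2 := cos_lb ht.1.le ht.2.le
      have h3 : 1 / (2 * cos t) ≤ 271 / 500 := by
        rw [div_le_iff₀ (by linarith)]
        linarith
      linarith
  have h2 := hmono (left_mem_Icc.2 (by linarith [pi_pos])) ⟨h0, h1⟩ h0
  have h3 : G 0 = 0 := by simp [G]
  linarith

/-- the difference of the two sides -/
noncomputable def F (x : ℝ) : ℝ :=
  GapVol.lob (π / 4 + x / 2) + GapVol.lob (π / 4 - x / 2) + 271 / 1000 * x ^ 2

theorem F_deriv {x : ℝ} (h0 : 0 ≤ x) (h1 : x ≤ π / 8) : HasDerivAt F (G x) x := by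
  have hpi := pi_pos
  have d1 := (Pool.Agent.W120.VC.lob_deriv (x := π / 4 + x / 2) (by linarith)
    (by linarith)).comp x (db x)
  have d2 := (Pool.Agent.W120.VC.lob_deriv (x := π / 4 - x / 2) (by linarith)
    (by linarith)).comp x (da x)
  have d3 := (d1.add d2).add (((hasDerivAt_id x).pow 2).const_mul (271 / 1000))
  refine d3.congr_deriv ?_
  unfold G
  simp
  ring

theorem main {x : ℝ} (h0 : 0 ≤ x) (h1 : x ≤ π / 8) :
    2 * GapVol.lob (π / 4) - 271 / 1000 * x ^ 2 ≤
      GapVol.lob (π / 4 + x / 2) + GapVol.lob (π / 4 - x / 2) := by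
  have hmono : MonotoneOn F (Icc 0 (π / 8)) := by
    apply monotoneOn_of_deriv_nonneg (convex_Icc 0 (π / 8))
    · intro t ht
      exact (F_deriv ht.1 ht.2).continuousAt.continuousWithinAt
    · intro t ht
      rw [interior_Icc] at ht
      exact (F_deriv ht.1.le ht.2.le).differentiableAt.differentiableWithinAt
    · intro t ht
      rw [interior_Icc] at ht
      rw [(F_deriv ht.1.le ht.2.le).deriv]
      exact G_nonneg ht.1.le ht.2.le
  have h2 := hmono (left_mem_Icc.2 (by linarith [pi_pos])) ⟨h0, h1⟩ h0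
  have h3 : F 0 = 2 * GapVol.lob (π / 4) := by
    unfold F
    simp
    ring
  unfold F at h2 h3
  linarith

theorem s_n2 : ∀ x : ℝ, |x| ≤ Real.pi / 8 →
    2 * GapVol.lob (Real.pi / 4) - 271 / 1000 * x ^ 2 ≤
      GapVol.lob (Real.pi / 4 + x / 2) + GapVol.lob (Real.pi / 4 - x / 2) := by
  intro x hx
  rcases le_total 0 x with h | h
  · exact main h (by rwa [abs_of_nonneg h] at hx)
  · have h1 := main (x := -x) (by linarith) (by rwa [abs_of_nonpos h] at hx)
    have e1 : π / 4 + -x / 2 = π / 4 - x / 2 := by ring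
    have e2 : π / 4 - -x / 2 = π / 4 + x / 2 := by ring
    rw [e1, e2, neg_sq] at h1
    linarith

end Pool.Agent.N390.VV
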